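import Pool.Agent.Helper33.RT.Path

/-!
# Local systems of rank two and three on hyperelliptic curves

Let `C` be a hyperelliptic curve of genus `g`, a double covering of `P¹` branched at the points
`x_0, …, x_{2g+1}`, and let `ρ` be a representation of rank two or three of its fundamental group.
If the eigenvalues of `ρ y` are roots of unity for all loops `y` around two branch points and, in
rank three, around four branch points, then the character of `ρ` has a finite orbit under the
hyperelliptic mapping class group.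
-/

namespace Pool.Agent.Helper33.RT.Cand.Hyperelliptic

open Pool.Agent.Helper33.RT

theorem result (g r : ℕ) (hg : 1 ≤ g) (hr : r = 2 ∨ r = 3)
    (ρ : evenSub (2 * g + 2) →* GL (Fin r) ℂ)
    (hρ : ∀ y : evenSub (2 * g + 2), IsLoopAround 2 y ∨ (r = 3 ∧ IsLoopAround 4 y) → ∀ z : ℂ,
      (ρ y : Matrix (Fin r) (Fin r) ℂ).charpoly.IsRoot z → ∃ m : ℕ, 0 < m ∧ z ^ m = 1) :
    {χ : evenSub (2 * g + 2) → ℂ | ∃ ψ : evenSub (2 * g + 2) ≃* evenSub (2 * g + 2),
      IsSymmetric ψ ∧ χ = fun y => (ρ (ψ y) : Matrix (Fin r) (Fin r) ℂ).trace}.Finite := by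
  rcases hr with rfl | rfl
  · exact (hyp_two (by omega) ρ fun y hy => hρ y (Or.inl hy)).1
  · exact hyp_three (by omega) ρ fun y hy => hρ y (hy.imp id fun h => ⟨rfl, h⟩)

end Pool.Agent.Helper33.RT.Cand.Hyperelliptic
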